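import Pool.Agent.H21.Triple

namespace Pool.Agent.Results.MP_f77be9_al.NoAnti

open Pool.Agent.H21.Triple

lemma t1 : DiagTriTri (Matrix.toLin' (!![1, 0; 0, -1] : Matrix _ _ ℚ)) (Matrix.toLin' !![0, 1; 1, 0]) (Matrix.toLin' !![1, 8; 1, -1]) :=
  diagTriTri_of !![1, 0; 0, 1] !![1, 0; 0, 1] _ _ _
      (by ext i j; fin_cases i <;> fin_cases j <;> simp [Matrix.mul_apply, Fin.sum_univ_succ] <;> norm_num)
      (by
        rw [show (!![1, 0; 0, 1] * !![1, 0; 0, -1] * !![1, 0; 0, 1] : Matrix _ _ ℚ) = !![1, 0; 0, -1] by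
          ext i j; fin_cases i <;> fin_cases j <;> simp [Matrix.mul_apply, Fin.sum_univ_succ] <;> norm_num]
        apply isDiag2 <;> norm_num)
      (by
        rw [show (!![1, 0; 0, 1] * !![0, 1; 1, 0] * !![1, 0; 0, 1] : Matrix _ _ ℚ) = !![0, 1; 1, 0] by
          ext i j; fin_cases i <;> fin_cases j <;> simp [Matrix.mul_apply, Fin.sum_univ_succ] <;> norm_num]
        apply irrTri2 <;> norm_num)
      (by
        rw [show (!![1, 0; 0, 1] * !![1, 8; 1, -1] * !![1, 0; 0, 1] : Matrix _ _ ℚ) = !![1, 8; 1, -1] by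
          ext i j; fin_cases i <;> fin_cases j <;> simp [Matrix.mul_apply, Fin.sum_univ_succ] <;> norm_num]
        apply irrTri2 <;> norm_num)

lemma t2 : DiagTriTri (Matrix.toLin' (!![0, 1; 1, 0] : Matrix _ _ ℚ)) (Matrix.toLin' !![1, 0; 0, -1]) (Matrix.toLin' !![1, 8; 1, -1]) :=
  diagTriTri_of !![1, 1; 1, -1] !![1/2, 1/2; 1/2, -1/2] _ _ _
      (by ext i j; fin_cases i <;> fin_cases j <;> simp [Matrix.mul_apply, Fin.sum_univ_succ] <;> norm_num)
      (by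
        rw [show (!![1/2, 1/2; 1/2, -1/2] * !![0, 1; 1, 0] * !![1, 1; 1, -1] : Matrix _ _ ℚ) = !![1, 0; 0, -1] by
          ext i j; fin_cases i <;> fin_cases j <;> simp [Matrix.mul_apply, Fin.sum_univ_succ] <;> norm_num]
        apply isDiag2 <;> norm_num)
      (by
        rw [show (!![1/2, 1/2; 1/2, -1/2] * !![1, 0; 0, -1] * !![1, 1; 1, -1] : Matrix _ _ ℚ) = !![0, 1; 1, 0] by
          ext i j; fin_cases i <;> fin_cases j <;> simp [Matrix.mul_apply, Fin.sum_univ_succ] <;> norm_num]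
        apply irrTri2 <;> norm_num)
      (by
        rw [show (!![1/2, 1/2; 1/2, -1/2] * !![1, 8; 1, -1] * !![1, 1; 1, -1] : Matrix _ _ ℚ) = !![9/2, -5/2; 9/2, -9/2] by
          ext i j; fin_cases i <;> fin_cases j <;> simp [Matrix.mul_apply, Fin.sum_univ_succ] <;> norm_num]
        apply irrTri2 <;> norm_num)

lemma t3 : DiagTriTri (Matrix.toLin' (!![1, 8; 1, -1] : Matrix _ _ ℚ)) (Matrix.toLin' !![1, 0; 0, -1]) (Matrix.toLin' !![0, 1; 1, 0]) :=
  diagTriTri_of !![4, 2; 1, -1] !![1/6, 1/3; 1/6, -2/3] _ _ _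
      (by ext i j; fin_cases i <;> fin_cases j <;> simp [Matrix.mul_apply, Fin.sum_univ_succ] <;> norm_num)
      (by
        rw [show (!![1/6, 1/3; 1/6, -2/3] * !![1, 8; 1, -1] * !![4, 2; 1, -1] : Matrix _ _ ℚ) = !![3, 0; 0, -3] by
          ext i j; fin_cases i <;> fin_cases j <;> simp [Matrix.mul_apply, Fin.sum_univ_succ] <;> norm_num]
        apply isDiag2 <;> norm_num)
      (by
        rw [show (!![1/6, 1/3; 1/6, -2/3] * !![1, 0; 0, -1] * !![4, 2; 1, -1] : Matrix _ _ ℚ) = !![1/3, 2/3; 4/3, -1/3] by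
          ext i j; fin_cases i <;> fin_cases j <;> simp [Matrix.mul_apply, Fin.sum_univ_succ] <;> norm_num]
        apply irrTri2 <;> norm_num)
      (by
        rw [show (!![1/6, 1/3; 1/6, -2/3] * !![0, 1; 1, 0] * !![4, 2; 1, -1] : Matrix _ _ ℚ) = !![3/2, 1/2; -5/2, -3/2] by
          ext i j; fin_cases i <;> fin_cases j <;> simp [Matrix.mul_apply, Fin.sum_univ_succ] <;> norm_num]
        apply irrTri2 <;> norm_num)

def IsAnti {K R : Type} [Field K] [Ring R] [Algebra K R] (σ : R ≃ₗ[K] R) : Prop :=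
  ∀ r s, σ (r * s) = σ s * σ r

def Swaps {K R : Type} [Field K] [Ring R] [Algebra K R] (σ : R ≃ₗ[K] R) (x y z : R) : Prop :=
  σ x = x ∧ (∃ c : K, σ (x * y - y * x) = c • (x * z - z * x)) ∧
    (∃ c : K, σ (x * z - z * x) = c • (x * y - y * x))

theorem result : ∃ x y z : Module.End ℚ (Fin 2 → ℚ), IsLeonardTriple x y z ∧
    ¬ ∃ σ : Module.End ℚ (Fin 2 → ℚ) ≃ₗ[ℚ] Module.End ℚ (Fin 2 → ℚ), IsAnti σ ∧ Swaps σ x y z := by
  refine ⟨_, _, _, ⟨t1, t2, t3⟩, ?_⟩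
  rintro ⟨σ, hm, -, ⟨c, hc⟩, -⟩
  have h1 : σ 1 = 1 := by
    have := hm 1 (σ.symm 1)
    simpa using this.symm
  set u : Module.End ℚ (Fin 2 → ℚ) := Matrix.toLin' !![1, 0; 0, -1] * Matrix.toLin' !![0, 1; 1, 0] - Matrix.toLin' !![0, 1; 1, 0] * Matrix.toLin' !![1, 0; 0, -1] with hu
  set w : Module.End ℚ (Fin 2 → ℚ) := Matrix.toLin' !![1, 0; 0, -1] * Matrix.toLin' !![1, 8; 1, -1] - Matrix.toLin' !![1, 8; 1, -1] * Matrix.toLin' !![1, 0; 0, -1] with hw
  have e1 : u * u = (-4 : ℚ) • 1 := by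
    rw [hu]; ext i j; fin_cases i <;> fin_cases j <;> simp [Matrix.mulVec, dotProduct, Fin.sum_univ_succ] <;> norm_num
  have e2 : w * w = (-32 : ℚ) • 1 := by
    rw [hw]; ext i j; fin_cases i <;> fin_cases j <;> simp [Matrix.mulVec, dotProduct, Fin.sum_univ_succ] <;> norm_num
  have e3 := hm u u
  rw [e1, map_smul, h1, hc, smul_mul_smul_comm, e2, smul_smul] at e3
  have e4 := congrFun (LinearMap.congr_fun e3 ![1, 0]) 0
  simp at e4
  have e5 : (4 * c) * (4 * c) = 2 := by linarith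
  have : IsSquare (2 : ℚ) := ⟨4 * c, e5.symm⟩
  have h2 : IsSquare ((2 : ℕ) : ℚ) := by simpa using this
  rw [Rat.isSquare_natCast_iff] at h2
  exact Nat.prime_two.prime.not_isSquare h2

end Pool.Agent.Results.MP_f77be9_al.NoAnti
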